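import Mathlib

set_option autoImplicit false
open Set Filter Topology

namespace Pool.Agent.Results.MP_f4f8d7_an.Glide

/-- the graph of a function in the Euclidean plane -/
def graph (f : ℝ → ℝ) : Set (EuclideanSpace ℝ (Fin 2)) := {p | p 1 = f (p 0)}

noncomputable def s (n : ℕ) (x : ℝ) : ℝ := 2 ^ n * (2 ^ (n ^ 2) * x - round (2 ^ (n ^ 2) * x))

theorem s_meas (n : ℕ) : Measurable (s n) := by
  have : Measurable fun x : ℝ => (round x : ℝ) := by
    simp only [round_eq]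
    exact measurable_from_top.comp (Int.measurable_floor.comp (by fun_prop))
  unfold s
  exact measurable_const.mul ((by fun_prop : Measurable fun x : ℝ => 2 ^ (n ^ 2) * x).sub
    (this.comp (by fun_prop)))

theorem to_round {φ : ℕ → ℕ} (hφ : Tendsto φ atTop atTop) (x u : ℝ) (z : ℕ → ℤ)
    (h : Tendsto (fun n => 2 ^ φ n * (2 ^ (φ n ^ 2) * x - z n)) atTop (𝓝 u)) :
    Tendsto (fun n => s (φ n) x) atTop (𝓝 u) := by
  have h1 := h.mul ((tendsto_pow_atTop_nhds_zero_of_lt_one (r := (1 / 2 : ℝ)) (by norm_num)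
    (by norm_num)).comp hφ)
  rw [mul_zero] at h1
  refine h.congr' ?_
  filter_upwards [h1.eventually (Ioo_mem_nhds (show (-1 / 2 : ℝ) < 0 by norm_num)
    (show (0 : ℝ) < 1 / 2 by norm_num))] with n hn
  have e : (2 : ℝ) ^ φ n * (2 ^ (φ n ^ 2) * x - z n) * (1 / 2) ^ φ n = 2 ^ (φ n ^ 2) * x - z n := by
    rw [one_div, inv_pow]; field_simp
  simp only [Function.comp, e] at hn
  rw [s, round_eq_iff.mpr (show _ ∈ Ico ((z n : ℝ) - 1 / 2) (z n + 1 / 2) from
    ⟨by linarith [hn.1], by linarith [hn.2]⟩)]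

theorem s_add {φ : ℕ → ℕ} (hφ : Tendsto φ atTop atTop) {x t u v : ℝ}
    (hx : Tendsto (fun n => s (φ n) x) atTop (𝓝 u)) (ht : Tendsto (fun n => s (φ n) t) atTop (𝓝 v)) :
    Tendsto (fun n => s (φ n) (x + t)) atTop (𝓝 (u + v)) :=
  to_round hφ _ _ (fun n => round (2 ^ (φ n ^ 2) * x) + round (2 ^ (φ n ^ 2) * t))
    ((hx.add ht).congr fun n => by simp only [s]; push_cast; ring)

theorem s_sub {φ : ℕ → ℕ} (hφ : Tendsto φ atTop atTop) {x t u v : ℝ}
    (hx : Tendsto (fun n => s (φ n) (x + t)) atTop (𝓝 u))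
    (ht : Tendsto (fun n => s (φ n) t) atTop (𝓝 v)) :
    Tendsto (fun n => s (φ n) x) atTop (𝓝 (u - v)) :=
  to_round hφ _ _ (fun n => round (2 ^ (φ n ^ 2) * (x + t)) - round (2 ^ (φ n ^ 2) * t))
    ((hx.sub ht).congr fun n => by simp only [s]; push_cast; ring)

theorem surj (c : ℕ → ℝ) (C : ℝ) (hc : ∀ n, |c n| ≤ C) : ∃ (x : ℝ) (z : ℕ → ℤ),
    Tendsto (fun n => 2 ^ n * (2 ^ (n ^ 2) * x - z n) - c n) atTop (𝓝 0) := by
  let m : ℕ → ℤ := fun k => ⌊c k * 2 ^ (k + 1)⌋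
  have hm : ∀ k, |(m k : ℝ) - c k * 2 ^ (k + 1)| ≤ 1 := fun k => by
    rw [abs_le]
    constructor <;> linarith [Int.floor_le (c k * 2 ^ (k + 1)), Int.lt_floor_add_one (c k * 2 ^ (k + 1))]
  have hm2 : ∀ k, |(m k : ℝ)| ≤ (C + 1) * 2 ^ (k + 1) := fun k => by
    have h1 := abs_sub_abs_le_abs_sub (m k : ℝ) (c k * 2 ^ (k + 1))
    rw [abs_mul, abs_of_pos (a := (2 : ℝ) ^ (k + 1)) (by positivity)] at h1
    have h2 : (1 : ℝ) ≤ 2 ^ (k + 1) := one_le_pow₀ (by norm_num)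
    nlinarith [hm k, mul_le_mul_of_nonneg_right (hc k) (by positivity : (0 : ℝ) ≤ 2 ^ (k + 1))]
  have hC : 0 ≤ C + 1 := by linarith [abs_nonneg (c 0), hc 0]
  let a : ℕ → ℝ := fun k => m k / 2 ^ ((k + 1) ^ 2)
  have hb : ∀ n j : ℕ, ‖2 ^ n * (2 ^ (n ^ 2) * a (j + (n + 1)))‖ ≤ (C + 1) * (1 / 2) ^ n * (1 / 2) ^ j := by
    intro n j
    simp only [a, norm_mul, norm_div, norm_pow, Real.norm_eq_abs, abs_two, one_div, inv_pow]
    rw [← mul_div_assoc, ← mul_div_assoc, mul_assoc, ← mul_inv, ← div_eq_mul_inv,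
      div_le_div_iff₀ (by positivity) (by positivity)]
    calc _ ≤ 2 ^ n * (2 ^ (n ^ 2) * ((C + 1) * 2 ^ (j + (n + 1) + 1))) * (2 ^ n * 2 ^ j) := by
          gcongr; exact hm2 _
      _ = (C + 1) * 2 ^ (n + n ^ 2 + (j + (n + 1) + 1) + n + j) := by ring
      _ ≤ _ := by gcongr; norm_num; nlinarith
  have hg := summable_geometric_two
  have ha : Summable a := by
    rw [← summable_nat_add_iff 1]
    exact Summable.of_norm_bounded (hg.mul_left ((C + 1) * (1 / 2) ^ 0)) fun j => by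
      simpa using hb 0 j
  refine ⟨∑' k, a k, fun n => ∑ k ∈ Finset.range n, m k * 2 ^ (n ^ 2 - (k + 1) ^ 2), ?_⟩
  have h0 := (tendsto_pow_atTop_nhds_zero_of_lt_one (r := (1 / 2 : ℝ)) (by norm_num)
    (by norm_num)).const_mul (1 + 2 * (C + 1))
  rw [mul_zero] at h0
  refine squeeze_zero_norm (fun n => ?_) h0
  have e1 : ((∑ k ∈ Finset.range n, m k * 2 ^ (n ^ 2 - (k + 1) ^ 2) : ℤ) : ℝ) =
      2 ^ (n ^ 2) * ∑ k ∈ Finset.range n, a k := by
    push_cast
    rw [Finset.mul_sum]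
    refine Finset.sum_congr rfl fun k hk => ?_
    have : (k + 1) ^ 2 ≤ n ^ 2 := Nat.pow_le_pow_left (Finset.mem_range.mp hk) 2
    rw [pow_sub₀ _ (by norm_num) this]
    simp only [a]; ring
  have e2 := tsum_of_norm_bounded (hg.hasSum.mul_left ((C + 1) * (1 / 2) ^ n)) (hb n)
  rw [tsum_geometric_two, tsum_mul_left, tsum_mul_left] at e2
  have e3 : 2 ^ n * (2 ^ (n ^ 2) * a n) - c n = (m n - c n * 2 ^ (n + 1)) * (1 / 2) ^ (n + 1) := by
    simp only [a, one_div, inv_pow]; field_simp; ring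
  have e4 : ‖2 ^ n * (2 ^ (n ^ 2) * a n) - c n‖ ≤ (1 / 2) ^ n := by
    rw [e3, norm_mul, norm_pow, Real.norm_eq_abs, Real.norm_eq_abs, abs_of_pos (a := (1 / 2 : ℝ))
      (by norm_num), pow_succ (1 / 2 : ℝ)]
    have : (0 : ℝ) < (1 / 2) ^ n := by positivity
    nlinarith [hm n]
  rw [e1, ← ha.sum_add_tsum_nat_add (n + 1), Finset.sum_range_succ]
  refine le_trans (le_of_eq ?_) ((norm_add_le _ _).trans ((add_le_add e4 e2).trans (le_of_eq (by ring))))
  congr 1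
  ring

theorem ev : Tendsto (fun n : ℕ => 2 * n) atTop atTop :=
  tendsto_atTop_mono (fun n => by simp; omega) tendsto_id
theorem od : Tendsto (fun n : ℕ => 2 * n + 1) atTop atTop :=
  tendsto_atTop_mono (fun n => by simp; omega) tendsto_id

theorem surj2 (u v : ℝ) : ∃ t, Tendsto (fun n => s (2 * n) t) atTop (𝓝 u) ∧
    Tendsto (fun n => s (2 * n + 1) t) atTop (𝓝 v) := by
  obtain ⟨x, z, h⟩ := surj (fun n => if n % 2 = 0 then u else v) (|u| + |v|) fun n => by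
    split_ifs <;> linarith [abs_nonneg u, abs_nonneg v]
  refine ⟨x, to_round ev x u (fun n => z (2 * n)) ?_, to_round od x v (fun n => z (2 * n + 1)) ?_⟩
  · simpa [Function.comp_def] using (h.comp ev).add_const u
  · simpa [Function.comp_def] using (h.comp od).add_const v

def G : Set ℝ := {x | (∃ u, Tendsto (fun n => s (2 * n) x) atTop (𝓝 u)) ∧
  ∃ v, Tendsto (fun n => s (2 * n + 1) x) atTop (𝓝 v)}

noncomputable def f : ℝ → ℝ := G.indicator fun x => Real.exp (limUnder atTop fun n => s (2 * n) x) *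
  Real.cos (Real.pi * limUnder atTop fun n => s (2 * n + 1) x)

theorem f_meas : Measurable f := by
  refine Measurable.indicator ?_ ((MeasureTheory.measurableSet_exists_tendsto fun n => s_meas _).inter
    (MeasureTheory.measurableSet_exists_tendsto fun n => s_meas _))
  have h1 := (MeasureTheory.StronglyMeasurable.limUnder (l := atTop)
    fun n : ℕ => (s_meas (2 * n)).stronglyMeasurable).measurable
  have h2 := (MeasureTheory.StronglyMeasurable.limUnder (l := atTop)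
    fun n : ℕ => (s_meas (2 * n + 1)).stronglyMeasurable).measurable
  exact h1.exp.mul (h2.const_mul _).cos

theorem f_shift (c : ℝ) (hc : 0 < c) (k : ℕ) : ∃ t, ∀ x, f (x + t) = (-1) ^ k * (c * f x) := by
  obtain ⟨t, h1, h2⟩ := surj2 (Real.log c) k
  refine ⟨t, fun x => ?_⟩
  by_cases h : x ∈ G
  · obtain ⟨⟨u, hu⟩, v, hv⟩ := id h
    have a := s_add ev hu h1
    have b := s_add od hv h2
    rw [f, indicator_of_mem h, indicator_of_mem (show x + t ∈ G from ⟨⟨_, a⟩, _, b⟩), a.limUnder_eq,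
      b.limUnder_eq, hu.limUnder_eq, hv.limUnder_eq, Real.exp_add, Real.exp_log hc, mul_add,
      mul_comm Real.pi (k : ℝ), Real.cos_add_nat_mul_pi]
    ring
  · rw [f, indicator_of_notMem h, indicator_of_notMem, mul_zero, mul_zero]
    rintro ⟨⟨u, hu⟩, v, hv⟩
    exact h ⟨⟨_, s_sub ev hu h1⟩, _, s_sub od hv h2⟩

theorem f_zero : f 0 = 1 := by
  have h : ∀ n, s n 0 = 0 := fun n => by simp [s]
  rw [f, indicator_of_mem (show (0 : ℝ) ∈ G from ⟨⟨0, by simp [h]⟩, 0, by simp [h]⟩)]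
  simp [h, tendsto_const_nhds.limUnder_eq]

noncomputable def iso (t : ℝ) (k : ℕ) : EuclideanSpace ℝ (Fin 2) ≃ᵢ EuclideanSpace ℝ (Fin 2) where
  toFun p := !₂[p 0 + t, (-1) ^ k * p 1]
  invFun p := !₂[p 0 - t, (-1) ^ k * p 1]
  left_inv p := by
    ext i; fin_cases i <;> simp [← mul_assoc, ← mul_pow]
  right_inv p := by
    ext i; fin_cases i <;> simp [← mul_assoc, ← mul_pow]
  isometry_toFun := Isometry.of_dist_eq fun p q => by
    simp [EuclideanSpace.dist_eq, Real.dist_eq, ← mul_sub, mul_pow, ← pow_mul]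

theorem iso_graph {c t : ℝ} {k : ℕ} (h : ∀ x, f (x + t) = (-1) ^ k * (c * f x)) :
    iso t k '' graph (fun x => c * f x) = graph f := by
  ext p
  constructor
  · rintro ⟨q, hq, rfl⟩
    have hq : q 1 = c * f (q 0) := hq
    show (-1) ^ k * q 1 = f (q 0 + t)
    rw [h, hq]
  · intro hp
    have hp : p 1 = f (p 0) := hp
    refine ⟨(iso t k).symm p, ?_, (iso t k).apply_symm_apply p⟩
    show (-1) ^ k * p 1 = c * f (p 0 - t)
    have := h (p 0 - t)
    rw [sub_add_cancel] at this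
    rw [hp, this, ← mul_assoc, ← mul_pow]
    simp

theorem result : ∃ f : ℝ → ℝ, Measurable f ∧ (¬ ∃ a b : ℝ, ∀ x, f x = a + b * x) ∧
    ∀ c : ℝ, 0 < c → ∃ φ : EuclideanSpace ℝ (Fin 2) ≃ᵢ EuclideanSpace ℝ (Fin 2),
      φ '' graph (fun x => c * f x) = graph f ∧ (¬ ∃ v, ∀ p, φ p = p + v) ∧ ∀ p, φ p ≠ p := by
  refine ⟨f, f_meas, ?_, fun c hc => ?_⟩
  · rintro ⟨a, b, h⟩
    obtain ⟨t, ht⟩ := f_shift 1 one_pos 1
    have h0 := h 0
    have h1 := ht 0
    have h2 := ht (0 + t)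
    rw [h1, f_zero, h] at h2
    rw [f_zero, h] at h1
    rw [f_zero] at h0
    linarith
  · obtain ⟨t, ht⟩ := f_shift c hc 1
    refine ⟨iso t 1, iso_graph ht, ?_, fun p hp => ?_⟩
    · rintro ⟨v, hv⟩
      have h1 : (-1 : ℝ) ^ 1 * 0 = 0 + v 1 := congrArg (fun p => p 1) (hv !₂[0, 0])
      have h2 : (-1 : ℝ) ^ 1 * 1 = 1 + v 1 := congrArg (fun p => p 1) (hv !₂[0, 1])
      linarith
    · have h1 : p 0 + t = p 0 := congrArg (fun p => p 0) hp
      have h2 := ht 0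
      rw [show t = 0 by linarith, add_zero, f_zero] at h2
      linarith

end Pool.Agent.Results.MP_f4f8d7_an.Glide
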